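import Pool.Agent.Y843.CH.Stm

/-!
# Project CH: combinatorics of Chen's weights
-/

set_option autoImplicit false

namespace Pool.Agent.Y73.CH

open Finset Filter Pool.Agent.W23.DC Pool.Agent.Y660.RP Pool.Agent.Y843.CH

lemma list_prod_ge {y : ℝ} (hy : 0 ≤ y) (l : List ℕ) (hl : ∀ a ∈ l, y ≤ (a : ℝ)) :
    y ^ l.length ≤ ((l.prod : ℕ) : ℝ) := by
  induction l with
  | nil => simp
  | cons a l ih =>
    rw [List.prod_cons, List.length_cons, pow_succ', Nat.cast_mul]
    have h1 := hl a (by simp)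
    have h2 := ih fun b hb => hl b (by simp [hb])
    exact mul_le_mul h1 h2 (pow_nonneg hy _) (hy.trans h1)

lemma length_le {y : ℝ} (hy : 1 ≤ y) {X : ℝ} (hX : X < y ^ 3) {m : ℕ} (hm : m ≠ 0)
    (hmX : (m : ℝ) ≤ X) (hp : ∀ p : ℕ, p.Prime → p ∣ m → y ≤ p) :
    m.primeFactorsList.length ≤ 2 := by
  by_contra hcon
  push Not at hcon
  have h1 := list_prod_ge (zero_le_one.trans hy) m.primeFactorsList fun a ha =>
    hp a (Nat.prime_of_mem_primeFactorsList ha) (Nat.dvd_of_mem_primeFactorsList ha)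
  rw [Nat.prod_primeFactorsList hm] at h1
  have h2 : y ^ 3 ≤ y ^ m.primeFactorsList.length := pow_le_pow_right₀ hy (by omega)
  linarith

theorem wt : St_WT := by
  classical
  have h3 : ∀ᶠ N : ℕ in atTop, (3 : ℝ) < (N : ℝ) ^ (1 / 1000 : ℝ) :=
    ((tendsto_rpow_atTop (by norm_num : (0 : ℝ) < 1 / 1000)).comp
      tendsto_natCast_atTop_atTop).eventually_gt_atTop 3
  obtain ⟨N₀, hN₀⟩ := eventually_atTop.1 h3
  refine ⟨max N₀ 2, fun N hN n hn1 hn3 hq hq2 => ?_⟩
  have hN0 := hN₀ N (le_of_max_le_left hN)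
  have hN2 : 2 ≤ N := le_of_max_le_right hN
  have hNr : (1 : ℝ) ≤ N := by exact_mod_cast (by omega : 1 ≤ N)
  have hNp : (0 : ℝ) < N := by linarith
  set y : ℝ := (N : ℝ) ^ (667 / 1000 : ℝ) with hy
  have hy1 : 1 ≤ y := Real.one_le_rpow hNr (by norm_num)
  have hyN : y ≤ N := by
    calc y ≤ (N : ℝ) ^ (1 : ℝ) := Real.rpow_le_rpow_of_exponent_le hNr (by norm_num)
      _ = N := Real.rpow_one _
  have hy3 : 3 * (N : ℝ) ^ 2 < y ^ 3 := by
    have h4 : y ^ 3 = (N : ℝ) ^ 2 * (N : ℝ) ^ (1 / 1000 : ℝ) := by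
      rw [hy, ← Real.rpow_natCast ((N : ℝ) ^ (667 / 1000 : ℝ)) 3, ← Real.rpow_mul hNp.le,
        ← Real.rpow_natCast (N : ℝ) 2, ← Real.rpow_add hNp]
      norm_num
    rw [h4]
    have h5 : (0 : ℝ) < (N : ℝ) ^ 2 := by positivity
    nlinarith
  have hn0 : n ≠ 0 := by omega
  have hnr : (n : ℝ) ≤ 3 * (N : ℝ) ^ 2 := by exact_mod_cast hn3
  set D := (pr N (1 / 4) (667 / 1000)).filter (fun q => q ∣ n) with hD
  have hA : ∀ p : ℕ, p.Prime → p ∣ n → (p : ℝ) < y → p ∈ D := by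
    intro p hp hpn hpy
    rw [hD, mem_filter, mem_pr]
    refine ⟨⟨⟨hp.one_lt.le, ?_⟩, hp, ?_, ?_⟩, hpn⟩
    · exact_mod_cast (hpy.le.trans hyN)
    · exact (le_tt_iff hN2 hp _).2 (hq p hp hpn)
    · exact (tt_lt_iff hN2 hp _).2 hpy
  have hDy : ∀ p ∈ D, p.Prime ∧ p ∣ n ∧ (p : ℝ) < y := by
    intro p hp
    rw [hD, mem_filter, mem_pr] at hp
    exact ⟨hp.1.2.1, hp.2, (tt_lt_iff hN2 hp.1.2.1 _).1 hp.1.2.2.2⟩
  rcases Nat.lt_or_ge D.card 2 with hlt | hge
  swap
  · exact Or.inr (Or.inl hge)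
  rcases Nat.lt_or_ge D.card 1 with h0 | h1
  · left
    have hDe : D = ∅ := card_eq_zero.1 (by omega)
    refine length_le hy1 hy3 hn0 hnr fun p hp hpn => ?_
    by_contra hcon
    have := hA p hp hpn (not_le.1 hcon)
    rw [hDe] at this
    simp at this
  · have hD1 : D.card = 1 := by omega
    obtain ⟨p₁, hp₁⟩ := card_eq_one.1 hD1
    have hp₁D : p₁ ∈ D := by rw [hp₁]; simp
    obtain ⟨hpr, ⟨m, hm⟩, hpy⟩ := hDy p₁ hp₁D
    have hm0 : m ≠ 0 := by
      rintro rfl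
      exact hn0 (by rw [hm, mul_zero])
    have hpm : ¬ p₁ ∣ m := by
      rintro ⟨c, hc⟩
      have h5 := hq2 p₁ hpr ⟨c, by rw [hm, hc]; ring⟩
      linarith
    have hmle : (m : ℝ) ≤ 3 * (N : ℝ) ^ 2 := by
      refine le_trans ?_ hnr
      have : m ≤ n := by
        rw [hm]
        exact Nat.le_mul_of_pos_left m hpr.pos
      exact_mod_cast this
    have hmp : ∀ p : ℕ, p.Prime → p ∣ m → y ≤ p := by
      intro p hp hpm'
      by_contra hcon
      have h6 := hA p hp (hm ▸ hpm'.mul_left p₁) (not_le.1 hcon)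
      rw [hp₁, mem_singleton] at h6
      exact hpm (h6 ▸ hpm')
    have hlen := length_le hy1 hy3 hm0 hmle hmp
    have hperm := Nat.perm_primeFactorsList_mul hpr.ne_zero hm0
    have hl := hperm.length_eq
    rw [List.length_append, Nat.primeFactorsList_prime hpr, ← hm, List.length_singleton] at hl
    rcases Nat.lt_or_ge m.primeFactorsList.length 2 with h7 | h7
    · left
      omega
    · right
      right
      refine ⟨hD1, ?_⟩
      have h8 : m.primeFactorsList.length = 2 := by omega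
      obtain ⟨a, b, hab⟩ := List.length_eq_two.1 h8
      have hprod := Nat.prod_primeFactorsList hm0
      rw [hab] at hprod
      simp only [List.prod_cons, List.prod_nil, mul_one] at hprod
      have ha : a ∈ m.primeFactorsList := by rw [hab]; simp
      have hb : b ∈ m.primeFactorsList := by rw [hab]; simp
      have ha1 := Nat.prime_of_mem_primeFactorsList ha
      have hb1 := Nat.prime_of_mem_primeFactorsList hb
      have ha2 := hmp a ha1 (Nat.dvd_of_mem_primeFactorsList ha)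
      have hb2 := hmp b hb1 (Nat.dvd_of_mem_primeFactorsList hb)
      have hp₁pr : p₁ ∈ pr N (1 / 4) (667 / 1000) := (mem_filter.1 hp₁D).1
      rcases le_total a b with h9 | h9
      · exact ⟨p₁, a, b, hp₁pr, ha1, hb1, ha2, h9, by rw [hm, hprod]⟩
      · exact ⟨p₁, b, a, hp₁pr, hb1, ha1, hb2, h9, by rw [hm, mul_comm b a, hprod]⟩

end Pool.Agent.Y73.CH
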